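import Pool.Agent.Lib.TwinSym.Basic
import Pool.Agent.Lib.TwinSym.Sharp

set_option autoImplicit false

namespace Pool.Agent.Results.MP_04f010_co.AbelianSymmetry

open TwinSym

/-- Let the finite abelian group `A` act by automorphisms on the finite graph `G`, in which no two
edge-disjoint cycles have the same vertex set, and let `r` be the number of orbits. Then `G` has at
most `729 * r * |V|` edges. -/
theorem result {V A : Type*} [Fintype V] [Fintype A] [CommGroup A] [MulAction A V]
    (G : SimpleGraph V) [DecidableRel G.Adj]
    (haut : ∀ (g : A) (x y : V), G.Adj x y → G.Adj (g • x) (g • y)) (htwin : ¬ TwinPair G) :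
    G.edgeFinset.card ≤ 729 * Nat.card (MulAction.orbitRel.Quotient A V) * Fintype.card V :=
  edges_le G haut htwin

end Pool.Agent.Results.MP_04f010_co.AbelianSymmetry
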